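import Pool.Agent.helper56.NZ.Spec

/-!
# Project nz: module TIP

The tip is near the boundary.
-/

set_option autoImplicit false

open Complex Metric Set Filter Topology MeasureTheory
open Pool.Agent.helper98.ILF Pool.Agent.helper16.Multibrot
open HY (UD T S hd UN RM VV SG Orb fz)

noncomputable section

namespace NZ

theorem TIP (hPDC : HY.PDC_stmt) (hMOB : HY.MOB_stmt) : TIP_stmt := by
  intro n c V φ ψ b hSG y v H' hy hv hH hrel hvb
  have h0 : (0 : ℂ) ∈ UD := by
    change (0 : ℂ) ∈ ball (0 : ℂ) 1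
    exact mem_ball_self one_pos
  have ha : H' 0 ∈ UD := hH.map h0
  have hb : b ∈ UD := hSG.hb
  have h1 : ‖y‖ ^ n ≤ ‖T b (H' 0)‖ := hPDC n c V φ ψ b hSG y hy (H' 0) ha hrel
  obtain ⟨-, -, -, -, -, -, -, -, hsym, -⟩ := hMOB b hb
  obtain ⟨hmap, hTa, -, hTd, -⟩ := hMOB (H' 0) ha
  rw [hsym (H' 0) ha, ← hvb] at h1
  have hd' : DifferentiableOn ℂ (fun x => T (H' 0) (H' x)) (ball 0 1) :=
    hTd.comp hH.dif hH.map
  have hm : MapsTo (fun x => T (H' 0) (H' x)) (ball (0 : ℂ) 1) (ball 0 1) := by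
    intro x hx
    exact (hmap (H' x) (hH.map hx)).1
  have hz : ‖v‖ < 1 := by
    have := hv
    change v ∈ ball (0 : ℂ) 1 at this
    simpa using this
  have h2 := Complex.norm_le_norm_of_mapsTo_ball hd' (fun x hx => ball_subset_closedBall (hm hx)) hTa hz
  exact h1.trans h2

end NZ

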